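import Pool.Agent.H41.Half

set_option autoImplicit false

namespace Pool.Agent.Results.MP_1aa7fe_lc.Disproof

open Pool.Agent.H41.Search

/-- Negated form of Q1: for p = 1/2 there is a trajectory of competitive ratio at most 3.48,
which is below 4 - p = 3.5. -/
theorem result : ∃ p : ℝ, 0 < p ∧ p < 1 ∧ ∃ T : ℕ → ℝ, IsHalfTraj T ∧
    halfCR p T < ENNReal.ofReal (4 - p) :=
  ⟨1 / 2, by norm_num, by norm_num, Half.X, Half.X_traj, lt_of_le_of_lt Half.X_CR
    ((ENNReal.ofReal_lt_ofReal_iff (by norm_num)).mpr (by norm_num))⟩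

end Pool.Agent.Results.MP_1aa7fe_lc.Disproof
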